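import Mathlib
import Pool.Agent.H825R3.Tsi.Defs
import Pool.Agent.H825R3.Tsi.Exist

/-!
# The separation constant of the unit ball of Tsirelson space is two

For the Figiel-Johnson norm the vectors `e_a + e_b` have norm one, while the difference of two such
vectors with disjoint supports beyond the fourth unit vector has norm two (four singletons form an
admissible family). Hence `P(T) = 2`, and the supremum is attained by an infinite subset of the
unit sphere.
-/

set_option autoImplicit false

namespace Pool.Agent.Results.MP_6d986f_an.SeparationIsTwo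

open Pool.Agent.H825R3.Tsi

/-- The numbers `l > 0` for which the closed unit ball of `X` contains an infinite subset any two
distinct points of which have distance at least `l`. -/
def Separations (X : Type) [NormedAddCommGroup X] : Set ℝ :=
  {l : ℝ | 0 < l ∧ ∃ S : Set X, S.Infinite ∧ (∀ x ∈ S, ‖x‖ ≤ 1) ∧
    ∀ x ∈ S, ∀ y ∈ S, x ≠ y → l ≤ ‖x - y‖}

/-- The constant `P(X)`. -/
noncomputable def sepConst (X : Type) [NormedAddCommGroup X] : ℝ := sSup (Separations X)

section
variable {T : Type} [NormedAddCommGroup T] [NormedSpace ℝ T] {e : ℕ → T}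

lemma comb_single (k : ℕ) (a : ℝ) : comb e (Finsupp.single k a) = a • e k := by
  simp [comb]

lemma comb_add (x y : ℕ →₀ ℝ) : comb e (x + y) = comb e x + comb e y := by
  have h1 : comb e = (Finsupp.linearCombination ℝ e : (ℕ →₀ ℝ) → T) := rfl
  rw [h1, map_add]

lemma comb_zero : comb e (0 : ℕ →₀ ℝ) = 0 := by
  simp [comb]

lemma restr_single (E : Finset ℕ) (k : ℕ) (a : ℝ) :
    restr E (Finsupp.single k a) = if k ∈ E then Finsupp.single k a else 0 := by
  classical
  ext j
  simp only [restr, Finsupp.filter_apply]
  by_cases hj : j = k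
  · subst hj
    by_cases h : j ∈ E <;> simp [h]
  · by_cases h : k ∈ E <;> simp [h, Ne.symm hj]

lemma restr_add (E : Finset ℕ) (x y : ℕ →₀ ℝ) : restr E (x + y) = restr E x + restr E y := by
  simp [restr, Finsupp.filter_add]

/-- at most one member of an admissible family contains a given position -/
lemma sum_single_le (n : ℕ) (E : Fin n → Finset ℕ) (hE : Admissible n E) (k : ℕ) (a : ℝ) :
    ∑ i, ‖comb e (restr (E i) (Finsupp.single k a))‖ ≤ ‖comb e (Finsupp.single k a)‖ := by
  classical
  simp only [restr_single]
  by_cases h : ∃ i, k ∈ E i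
  · obtain ⟨i, hi⟩ := h
    rw [Finset.sum_eq_single i]
    · simp [hi]
    · intro j _ hj
      have hk : k ∉ E j := by
        intro hk
        rcases lt_or_gt_of_ne hj with h1 | h1
        · exact lt_irrefl _ (hE.2.2 j i h1 k hk k hi)
        · exact lt_irrefl _ (hE.2.2 i j h1 k hi k hk)
      simp [hk, comb_zero]
    · simp
  · push Not at h
    rw [Finset.sum_eq_zero]
    · exact norm_nonneg _
    · intro i _
      simp [h i, comb_zero]

lemma norm_e_le (h : IsTsirelson T e) (k : ℕ) : ‖e k‖ ≤ 1 := by
  have h1 := h.norm_eq (Finsupp.single k 1)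
  have h2 : comb e (Finsupp.single k 1) = e k := by simp [comb_single]
  have h3 : ‖comb e (Finsupp.single k (1 : ℝ))‖ ≤ max 1 (‖e k‖ / 2) := by
    refine h1.2 ?_
    rintro r (⟨j, rfl⟩ | ⟨n, E, hn, hE, rfl⟩)
    · refine le_max_of_le_left ?_
      by_cases hj : j = k
      · subst hj; simp
      · simp [Ne.symm hj]
    · refine le_max_of_le_right ?_
      have := sum_single_le (e := e) n E hE k 1
      rw [h2] at this
      linarith
  rw [h2] at h3
  rcases le_max_iff.1 h3 with h4 | h4
  · exact h4
  · have := norm_nonneg (e k)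
    linarith

/-- the vectors `e_k + e_{k+1}` lie in the unit ball -/
lemma norm_pair_le (h : IsTsirelson T e) {j k : ℕ} (hjk : j ≠ k) : ‖e j + e k‖ ≤ 1 := by
  set x : ℕ →₀ ℝ := Finsupp.single j 1 + Finsupp.single k 1 with hx
  have h2 : comb e x = e j + e k := by simp [hx, comb_add, comb_single]
  rw [← h2]
  refine (h.norm_eq x).2 ?_
  rintro r (⟨i, rfl⟩ | ⟨n, E, hn, hE, rfl⟩)
  · have : x i = (if j = i then 1 else 0) + (if k = i then 1 else 0) := by
      simp [hx, Finsupp.single_apply]
    rw [this]
    by_cases h3 : j = i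
    · have h4 : k ≠ i := fun h => hjk (h3.trans h.symm)
      simp [h3, h4]
    · by_cases h4 : k = i <;> simp [h3, h4]
  · have h3 : ∑ i, ‖comb e (restr (E i) x)‖ ≤
        ∑ i, (‖comb e (restr (E i) (Finsupp.single j 1))‖ +
          ‖comb e (restr (E i) (Finsupp.single k 1))‖) := by
      refine Finset.sum_le_sum fun i _ => ?_
      rw [hx, restr_add, comb_add]
      exact norm_add_le _ _
    rw [Finset.sum_add_distrib] at h3
    have h4 := sum_single_le (e := e) n E hE j 1
    have h5 := sum_single_le (e := e) n E hE k 1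
    have h6 : ‖comb e (Finsupp.single j (1 : ℝ))‖ ≤ 1 := by
      rw [comb_single, one_smul]; exact norm_e_le h j
    have h7 : ‖comb e (Finsupp.single k (1 : ℝ))‖ ≤ 1 := by
      rw [comb_single, one_smul]; exact norm_e_le h k
    linarith

lemma one_le_norm_e (h : IsTsirelson T e) (k : ℕ) : 1 ≤ ‖e k‖ := by
  have h1 := (h.norm_eq (Finsupp.single k 1)).1 (Or.inl ⟨k, rfl⟩)
  simpa [comb_single] using h1

/-- four different positions `≥ 4` and coefficients of modulus one -/
lemma two_le_norm (h : IsTsirelson T e) {a b c d : ℕ} (ha : 3 ≤ a) (hab : a < b) (hbc : b < c)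
    (hcd : c < d) : 2 ≤ ‖(e a + e b) - (e c + e d)‖ := by
  classical
  set x : ℕ →₀ ℝ := Finsupp.single a 1 + Finsupp.single b 1 + Finsupp.single c (-1) +
    Finsupp.single d (-1) with hx
  have h2 : comb e x = (e a + e b) - (e c + e d) := by
    simp only [hx, comb_add, comb_single]
    module
  rw [← h2]
  let E : Fin 4 → Finset ℕ := ![{a}, {b}, {c}, {d}]
  have hE : Admissible 4 E := by
    refine ⟨?_, ?_, ?_⟩
    · intro i; fin_cases i <;> simp [E]
    · intro i k hk
      fin_cases i <;> simp [E] at hk <;> omega
    · intro i j hij u hu v hv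
      fin_cases i <;> fin_cases j <;> simp [E] at hu hv hij <;> omega
  have h3 := (h.norm_eq x).1 (Or.inr ⟨4, E, by norm_num, hE, rfl⟩)
  have ra : restr {a} x = Finsupp.single a 1 := by
    simp only [hx, restr_add, restr_single, Finset.mem_singleton]
    simp [show b ≠ a by omega, show c ≠ a by omega, show d ≠ a by omega]
  have rb : restr {b} x = Finsupp.single b 1 := by
    simp only [hx, restr_add, restr_single, Finset.mem_singleton]
    simp [show a ≠ b by omega, show c ≠ b by omega, show d ≠ b by omega]
  have rc : restr {c} x = Finsupp.single c (-1) := by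
    simp only [hx, restr_add, restr_single, Finset.mem_singleton]
    simp [show a ≠ c by omega, show b ≠ c by omega, show d ≠ c by omega]
  have rd : restr {d} x = Finsupp.single d (-1) := by
    simp only [hx, restr_add, restr_single, Finset.mem_singleton]
    simp [show a ≠ d by omega, show b ≠ d by omega, show c ≠ d by omega]
  have h4 : ∑ i, ‖comb e (restr (E i) x)‖ = ‖e a‖ + ‖e b‖ + ‖e c‖ + ‖e d‖ := by
    rw [Fin.sum_univ_four]
    simp only [E, Matrix.cons_val_zero, Matrix.cons_val_one, Matrix.cons_val]
    rw [ra, rb, rc, rd]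
    simp only [comb_single, norm_smul]
    norm_num
  rw [h4] at h3
  have := one_le_norm_e h a
  have := one_le_norm_e h b
  have := one_le_norm_e h c
  have := one_le_norm_e h d
  linarith

/-- an infinite `2`-separated subset of the unit ball -/
lemma two_mem (h : IsTsirelson T e) : 2 ∈ Separations T := by
  have key : ∀ m n : ℕ, m < n → 2 ≤ ‖(e (2 * m + 3) + e (2 * m + 4)) -
      (e (2 * n + 3) + e (2 * n + 4))‖ := fun m n hmn =>
    two_le_norm h (by omega) (by omega) (by omega) (by omega)
  have key2 : ∀ m n : ℕ, m ≠ n → 2 ≤ ‖(e (2 * m + 3) + e (2 * m + 4)) -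
      (e (2 * n + 3) + e (2 * n + 4))‖ := by
    intro m n hmn
    rcases lt_or_gt_of_ne hmn with h1 | h1
    · exact key m n h1
    · rw [norm_sub_rev]; exact key n m h1
  have inj : Function.Injective fun m : ℕ => e (2 * m + 3) + e (2 * m + 4) := by
    intro m n hmn
    by_contra hne
    have := key2 m n hne
    simp only at hmn
    rw [hmn, sub_self, norm_zero] at this
    norm_num at this
  refine ⟨by norm_num, Set.range fun m : ℕ => e (2 * m + 3) + e (2 * m + 4),
    Set.infinite_range_of_injective inj, ?_, ?_⟩
  · rintro _ ⟨m, rfl⟩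
    exact norm_pair_le h (by omega)
  · rintro _ ⟨m, rfl⟩ _ ⟨n, rfl⟩ hne
    exact key2 m n fun hmn => hne (by rw [hmn])

end

/-- Every separation of an infinite subset of the unit ball is at most two. -/
lemma le_two {X : Type} [NormedAddCommGroup X] {l : ℝ} (hl : l ∈ Separations X) : l ≤ 2 := by
  obtain ⟨_, S, hS, h1, h2⟩ := hl
  obtain ⟨x, hx⟩ := hS.nonempty
  obtain ⟨y, hy, hxy⟩ := (hS.sdiff (Set.finite_singleton x)).nonempty
  have h3 := h2 x hx y hy fun h => hxy h.symm
  have h4 := norm_sub_le x y
  have := h1 x hx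
  have := h1 y hy
  linarith

/-- **The separation constant of the unit ball of Tsirelson space is `P(T) = 2`**, and it is
attained: Tsirelson space exists, and the unit ball of every realisation of it contains an infinite
subset any two distinct points of which have distance at least `2`. -/
theorem result :
    (∃ (T : Type) (_ : NormedAddCommGroup T) (_ : NormedSpace ℝ T) (e : ℕ → T),
      IsTsirelson T e) ∧
    ∀ (T : Type) [NormedAddCommGroup T] [NormedSpace ℝ T] (e : ℕ → T), IsTsirelson T e →
      sepConst T = 2 ∧ 2 ∈ Separations T := by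
  refine ⟨⟨TT, inferInstance, inferInstance, ee, isTsirelson_TT⟩, fun T _ _ e h => ?_⟩
  have h2 := two_mem h
  exact ⟨IsGreatest.csSup_eq ⟨h2, fun l hl => le_two hl⟩, h2⟩

end Pool.Agent.Results.MP_6d986f_an.SeparationIsTwo
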